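import Pool.Agent.Helper85.QT.St2

/-!
Project QD, stage 2, module VIS: visual density in flat coordinates.
-/

set_option autoImplicit false

open MeasureTheory Matrix Set Topology
open scoped ENNReal ComplexConjugate

namespace Pool.Agent.Helper79.QT

open Pool.Agent.Helper85.QT Pool.Agent.Helper86.QA

private theorem vis_sinh (y : ℝ) : y ^ 2 ≤ Real.sinh y ^ 2 := by
  rcases le_total 0 y with h | h
  · have h1 := Real.self_le_sinh_iff.2 h
    gcongr
  · have h1 := Real.self_le_sinh_iff.2 (neg_nonneg.2 h)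
    rw [Real.sinh_neg] at h1
    nlinarith

private theorem vis_cosh_ge (v : ℝ) : 1 + v ^ 2 / 2 ≤ Real.cosh v := by
  have h1 : Real.cosh v = Real.cosh (v / 2) ^ 2 + Real.sinh (v / 2) ^ 2 := by
    rw [← Real.cosh_two_mul]
    congr 1
    ring
  have h2 := Real.cosh_sq (v / 2)
  have h3 := vis_sinh (v / 2)
  nlinarith

private theorem vis_cosh_le (v : ℝ) (hv : v ^ 2 ≤ 1) : Real.cosh v ≤ 1 + v ^ 2 := by
  have h1 := Real.cosh_le_exp_half_sq v
  have h2 : Real.exp (v ^ 2 / 2) ≤ 1 / (1 - v ^ 2 / 2) :=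
    Real.exp_bound_div_one_sub_of_interval (by positivity) (by linarith)
  have h3 : 1 / (1 - v ^ 2 / 2) ≤ 1 + v ^ 2 := by
    rw [div_le_iff₀ (by linarith)]
    nlinarith [sq_nonneg v]
  linarith

private theorem vis_up {q s v θ : ℝ} (hq : 0 ≤ q) (hs : 0 ≤ s) (h : q ^ 2 + s ^ 2 = 1)
    (hθ : |θ| ≤ Real.pi) : s ^ 2 + v ^ 2 + θ ^ 2 ≤ 40 * (Real.cosh v - q * Real.cos θ) := by
  have h1 := vis_cosh_ge v
  have hpi : Real.pi ^ 2 ≤ 10 := by
    have h2 := Real.pi_lt_d2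
    have h3 := Real.pi_pos
    nlinarith
  have hpi0 : 0 < Real.pi ^ 2 := by positivity
  have hθ2 : θ ^ 2 ≤ Real.pi ^ 2 := by
    rw [← sq_abs θ]
    gcongr
  have hq1 : q ≤ 1 := by nlinarith
  have hs1 : s ^ 2 ≤ 1 := by nlinarith
  have key : s ^ 2 + θ ^ 2 ≤ 40 * (1 - q * Real.cos θ) := by
    rcases le_total (1 / 2) q with hq2 | hq2
    · have h4 := Real.cos_le_one_sub_mul_cos_sq hθ
      have h5 : 2 / Real.pi ^ 2 * θ ^ 2 ≤ 1 - Real.cos θ := by linarith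
      have h6 : θ ^ 2 / 5 ≤ 2 / Real.pi ^ 2 * θ ^ 2 := by
        have h7 : (1 : ℝ) / 5 ≤ 2 / Real.pi ^ 2 := by
          rw [div_le_div_iff₀ (by norm_num) hpi0]
          linarith
        have := mul_le_mul_of_nonneg_right h7 (sq_nonneg θ)
        linarith
      have h8 : θ ^ 2 / 10 ≤ q * (1 - Real.cos θ) := by
        have h9 : (1 / 2) * (θ ^ 2 / 5) ≤ q * (1 - Real.cos θ) :=
          mul_le_mul hq2 (h6.trans h5) (by positivity) hq
        linarith
      nlinarith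
    · have h4 : q * Real.cos θ ≤ 1 / 2 := by
        have h5 := Real.cos_le_one θ
        nlinarith
      nlinarith
  nlinarith [sq_nonneg v]

private theorem vis_low {q s v θ : ℝ} (hq : 0 ≤ q) (hs : 0 ≤ s) (h : q ^ 2 + s ^ 2 = 1)
    (hv : v ^ 2 + θ ^ 2 ≤ 1) : Real.cosh v - q * Real.cos θ ≤ s ^ 2 + v ^ 2 + θ ^ 2 := by
  have h1 := vis_cosh_le v (by nlinarith [sq_nonneg θ])
  have h2 := Real.one_sub_sq_div_two_le_cos (x := θ)
  have hq1 : q ≤ 1 := by nlinarith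
  have h3 : q * (1 - θ ^ 2 / 2) ≤ q * Real.cos θ := mul_le_mul_of_nonneg_left h2 hq
  nlinarith [sq_nonneg θ]

theorem hVIS (_hTTX : Pool.Agent.Helper85.QT.StTTX) : Pool.Agent.Helper85.QT.StVIS := by
  intro lam hlam x hx hx1 ξ hξ
  obtain ⟨z, t⟩ := x
  have ht : 0 < t := hx
  change z ≠ 0 at hx1
  have hl : 0 < ‖lam‖ := norm_pos_iff.2 hlam
  obtain ⟨l, hl'⟩ : ∃ l, l = ‖lam‖ := ⟨_, rfl⟩
  obtain ⟨n, hn⟩ : ∃ n, n = ‖z‖ := ⟨_, rfl⟩
  obtain ⟨a, ha⟩ : ∃ a, a = ‖ξ‖ := ⟨_, rfl⟩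
  have hn0 : 0 < n := by rw [hn]; exact norm_pos_iff.2 hx1
  have ha0 : 0 < a := by rw [ha]; exact norm_pos_iff.2 hξ
  rw [← hl'] at hl
  obtain ⟨R, hR⟩ : ∃ R, R = Real.sqrt (NN (z, t)) := ⟨_, rfl⟩
  have hNN : NN (z, t) = n ^ 2 + t ^ 2 := by rw [hn]; rfl
  have hR0 : 0 < R := by
    rw [hR, hNN]
    exact Real.sqrt_pos.2 (by positivity)
  have hR2 : R ^ 2 = n ^ 2 + t ^ 2 := by
    rw [hR, hNN, Real.sq_sqrt (by positivity)]
  have hT : TT lam (z, t) = t / (l * R) := by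
    rw [hR, hl']
    rfl
  have hrd : rd (z, t) = z * ((R / n : ℝ) : ℂ) := by
    rw [hR, hn]
    rfl
  have hRn : ((R / n : ℝ) : ℂ) ≠ 0 := by
    have : R / n ≠ 0 := by positivity
    exact_mod_cast this
  obtain ⟨w, hw⟩ : ∃ w, w = rd (z, t) / ξ := ⟨_, rfl⟩
  have hw0 : w ≠ 0 := by
    rw [hw, hrd]
    exact div_ne_zero (mul_ne_zero hx1 hRn) hξ
  have hwn : ‖w‖ = R / a := by
    rw [hw, hrd, norm_div, norm_mul, Complex.norm_real, Real.norm_eq_abs,
      abs_of_pos (by positivity), ← hn, ← ha]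
    field_simp
  obtain ⟨θ, hθ⟩ : ∃ θ, θ = Complex.arg w := ⟨_, rfl⟩
  obtain ⟨v, hv⟩ : ∃ v, v = Real.log ‖w‖ := ⟨_, rfl⟩
  have hθpi : |θ| ≤ Real.pi := by
    rw [hθ]
    exact Complex.abs_arg_le_pi w
  have hlog : ‖Complex.log w‖ ^ 2 = v ^ 2 + θ ^ 2 := by
    rw [← Complex.normSq_eq_norm_sq, Complex.normSq_apply, Complex.log_re, Complex.log_im, ← hv,
      ← hθ]
    ring
  have hfd : fd lam (rd (z, t)) ξ = ‖Complex.log w‖ / l := by
    rw [hl', hw]
    rfl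
  have hcosh : Real.cosh v = (R / a + a / R) / 2 := by
    rw [hv, hwn, Real.cosh_eq, Real.exp_neg, Real.exp_log (by positivity), inv_div]
  have hcos : w.re = R / a * Real.cos θ := by
    rw [hθ, Complex.cos_arg hw0, hwn]
    field_simp
  have hre : (z * conj ξ).re = a * n * Real.cos θ := by
    have h1 : z * conj ξ = w * ((a ^ 2 * (n / R) : ℝ) : ℂ) := by
      rw [hw, hrd]
      have h2 : ξ * conj ξ = ((a ^ 2 : ℝ) : ℂ) := by
        rw [Complex.mul_conj, Complex.normSq_eq_norm_sq, ha]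
      have h3 : (n : ℂ) ≠ 0 := by exact_mod_cast hn0.ne'
      have h4 : (R : ℂ) ≠ 0 := by exact_mod_cast hR0.ne'
      rw [Complex.ofReal_mul, ← h2, Complex.ofReal_div, Complex.ofReal_div]
      field_simp
    rw [h1, Complex.re_mul_ofReal, hcos]
    field_simp
  obtain ⟨K, hK⟩ : ∃ K, K = Real.cosh v - n / R * Real.cos θ := ⟨_, rfl⟩
  have hD : ‖z - ξ‖ ^ 2 + t ^ 2 = 2 * R * a * K := by
    rw [← Complex.normSq_eq_norm_sq, Complex.normSq_sub, Complex.normSq_eq_norm_sq,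
      Complex.normSq_eq_norm_sq, hre, ← hn, ← ha, hK, hcosh]
    field_simp
    linear_combination (-1 : ℝ) * hR2
  obtain ⟨s, hs⟩ : ∃ s, s = t / R := ⟨_, rfl⟩
  have hs0 : 0 < s := by rw [hs]; positivity
  have hqs : (n / R) ^ 2 + s ^ 2 = 1 := by
    rw [hs, div_pow, div_pow, ← add_div, ← hR2]
    field_simp
  obtain ⟨S, hS⟩ : ∃ S, S = s ^ 2 + v ^ 2 + θ ^ 2 := ⟨_, rfl⟩
  have hS0 : 0 < S := by rw [hS]; positivity
  have hup : S ≤ 40 * K := by
    rw [hS, hK]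
    exact vis_up (by positivity) hs0.le hqs hθpi
  have hK0 : 0 < K := by linarith
  have hTs : TT lam (z, t) = s / l := by
    rw [hT, hs]
    field_simp
  have hTd : TT lam (z, t) ^ 2 + fd lam (rd (z, t)) ξ ^ 2 = S / l ^ 2 := by
    rw [hTs, hfd, div_pow, div_pow, hlog, hS]
    ring
  have hpp : l * a * pp (z, t) ξ = l * s / (2 * K) := by
    have h1 : pp (z, t) ξ = t / (‖z - ξ‖ ^ 2 + t ^ 2) := rfl
    rw [h1, hD, hs]
    field_simp
  rw [hTd, hTs, hfd, ← hl', ← ha, hpp]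
  constructor
  · have h1 : 20 * (s / l) / (S / l ^ 2) = l * s * (20 / S) := by
      field_simp
    rw [h1]
    have h2 : l * s / (2 * K) = l * s * (1 / (2 * K)) := by ring
    rw [h2]
    refine mul_le_mul_of_nonneg_left ?_ (by positivity)
    rw [div_le_div_iff₀ (by positivity) hS0]
    linarith
  · intro h
    have h0 : ‖Complex.log w‖ ≤ 1 := by
      have h1 : l * (‖Complex.log w‖ / l) = ‖Complex.log w‖ := by field_simp
      rwa [h1] at h
    have h3 : v ^ 2 + θ ^ 2 ≤ 1 := by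
      rw [← hlog]
      have := norm_nonneg (Complex.log w)
      nlinarith
    have hlow : K ≤ S := by
      rw [hS, hK]
      exact vis_low (by positivity) hs0.le hqs h3
    have h1 : s / l / (2 * (S / l ^ 2)) = l * s * (1 / (2 * S)) := by
      field_simp
    rw [h1]
    have h2 : l * s / (2 * K) = l * s * (1 / (2 * K)) := by ring
    rw [h2]
    refine mul_le_mul_of_nonneg_left ?_ (by positivity)
    apply one_div_le_one_div_of_le (by positivity)
    linarith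

end Pool.Agent.Helper79.QT
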